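import Pool.Agent.W69.MH.Defs

set_option autoImplicit false

namespace Pool.Agent.W131.MH

open Pool.Agent.W69.MH

theorem core : St_CORE := by
  rintro ε m n hε ⟨C, hC⟩
  have hε2 : ε * ε = 1 := by rcases hε with rfl | rfl <;> norm_num
  have hC0 : ∀ i : Fin n, C 0 i.succ * C 0 i.succ = 1 := by
    intro i
    rcases hC.off 0 i.succ (Fin.succ_ne_zero i).symm with h | h <;> rw [h] <;> norm_num
  have hpm : ∀ i : Fin n, C 0 i.succ = 1 ∨ C 0 i.succ = -1 :=
    fun i => hC.off 0 i.succ (Fin.succ_ne_zero i).symm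
  have hCi0 : ∀ i : Fin n, C i.succ 0 = ε * C 0 i.succ := fun i => hC.sym 0 i.succ
  refine ⟨fun i j => C 0 i.succ * C i.succ j.succ * C 0 j.succ, ?_, ?_, ?_, ?_, ?_⟩
  · intro i
    simp only [hC.diag, mul_zero, zero_mul]
  · intro i j hij
    have h1 := hC.off i.succ j.succ (fun h => hij (Fin.succ_injective n h))
    beta_reduce
    rcases hpm i with h | h <;> rcases hpm j with h' | h' <;> rcases h1 with h'' | h'' <;>
      rw [h, h', h''] <;> norm_num
  · intro i j
    beta_reduce
    rw [hC.sym i.succ j.succ]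
    ring
  · intro i
    have h1 := hC.orth 0 i.succ (Fin.succ_ne_zero i).symm
    rw [Fin.sum_univ_succ, hC.diag, zero_mul, zero_add] at h1
    have h2 : ∑ k : Fin n, C 0 i.succ * C i.succ k.succ * C 0 k.succ =
        C 0 i.succ * ∑ k : Fin n, C 0 k.succ * C i.succ k.succ := by
      rw [Finset.mul_sum]
      exact Finset.sum_congr rfl fun k _ => by ring
    beta_reduce
    rw [h2]
    exact h1.mul_left _
  · intro i j hij
    have h1 := hC.orth i.succ j.succ (fun h => hij (Fin.succ_injective n h))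
    rw [Fin.sum_univ_succ, hCi0, hCi0] at h1
    have h2 : (∑ k : Fin n, (C 0 i.succ * C i.succ k.succ * C 0 k.succ) *
        (C 0 j.succ * C j.succ k.succ * C 0 k.succ)) + 1 =
        C 0 i.succ * C 0 j.succ * (ε * C 0 i.succ * (ε * C 0 j.succ) +
          ∑ k : Fin n, C i.succ k.succ * C j.succ k.succ) := by
      have h3 : C 0 i.succ * C 0 j.succ * (ε * C 0 i.succ * (ε * C 0 j.succ) +
          ∑ k : Fin n, C i.succ k.succ * C j.succ k.succ) =
          (ε * ε) * (C 0 i.succ * C 0 i.succ) * (C 0 j.succ * C 0 j.succ) +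
          ∑ k : Fin n, C 0 i.succ * C 0 j.succ * (C i.succ k.succ * C j.succ k.succ) := by
        rw [mul_add, Finset.mul_sum]
        ring
      rw [h3, hε2, hC0, hC0, one_mul, one_mul, add_comm]
      congr 1
      refine Finset.sum_congr rfl fun k _ => ?_
      have h4 := hC0 k
      linear_combination (C 0 i.succ * C i.succ k.succ * C 0 j.succ * C j.succ k.succ) * h4
    beta_reduce
    rw [h2]
    exact h1.mul_left _

end Pool.Agent.W131.MH
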